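import Mathlib
import Pool.Agent.TH953.RC.Shearer

/-!
The bound `M_H(n) ≤ 2 ^ (C(n, 2) - (χ(H) - 1))` on `H`-intersecting families of graphs is never
attained when `H` has at least two edges.

For `χ(H) ≥ 3` we project to the edges inside the parts of balanced partitions into `χ(H) - 1`
parts, where the family is still intersecting, and use Shearer's lemma. For `χ(H) = 2` the family is
`2`-intersecting.
-/

namespace Pool.Agent.Results.MP_cf191d_co.NeverTight

open Finset

section Families

variable {α : Type} [DecidableEq α]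

/-- An intersecting family of subsets of `S` has at most `2 ^ |S| / 2` members. -/
lemma intersecting_card (S : Finset α) (F : Finset (Finset α)) (hF : F ⊆ S.powerset)
    (hI : ∀ A ∈ F, ∀ B ∈ F, (A ∩ B).Nonempty) : 2 * F.card ≤ 2 ^ S.card := by
  have hinj : Set.InjOn (fun A => S \ A) (F : Set (Finset α)) := by
    intro A hA B hB h
    have hA' := Finset.mem_powerset.1 (hF hA)
    have hB' := Finset.mem_powerset.1 (hF hB)
    have h' : S \ A = S \ B := h
    rw [← Finset.sdiff_sdiff_eq_self hA', ← Finset.sdiff_sdiff_eq_self hB', h']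
  have hcard : (F.image fun A => S \ A).card = F.card := Finset.card_image_of_injOn hinj
  have hdisj : Disjoint F (F.image fun A => S \ A) := by
    rw [Finset.disjoint_left]
    intro A hA hA'
    obtain ⟨B, hB, hBA⟩ := Finset.mem_image.1 hA'
    obtain ⟨x, hx⟩ := hI A hA B hB
    rw [Finset.mem_inter, ← hBA, Finset.mem_sdiff] at hx
    exact hx.1.2 hx.2
  have hsub : F ∪ (F.image fun A => S \ A) ⊆ S.powerset := by
    apply Finset.union_subset hF
    intro A hA
    obtain ⟨B, -, rfl⟩ := Finset.mem_image.1 hA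
    exact Finset.mem_powerset.2 Finset.sdiff_subset
  have := Finset.card_le_card hsub
  rw [Finset.card_union_of_disjoint hdisj, hcard, Finset.card_powerset] at this
  omega

/-- A `2`-intersecting family of subsets of `S` has fewer than `2 ^ |S| / 2`
members. -/
lemma two_intersecting_card (S : Finset α) (F : Finset (Finset α))
    (hF : F ⊆ S.powerset) (hI : ∀ A ∈ F, ∀ B ∈ F, 2 ≤ (A ∩ B).card) :
    2 * F.card < 2 ^ S.card := by
  have hI1 : ∀ A ∈ F, ∀ B ∈ F, (A ∩ B).Nonempty := fun A hA B hB =>
    Finset.card_pos.1 (by have := hI A hA B hB; omega)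
  refine lt_of_le_of_ne (intersecting_card S F hF hI1) fun heq => ?_
  have hne : F.Nonempty := by
    rw [← Finset.card_pos]
    have : 0 < 2 ^ S.card := by positivity
    omega
  -- every subset of `S` or its complement is in `F`
  have hinj : Set.InjOn (fun A => S \ A) (F : Set (Finset α)) := by
    intro A hA B hB h
    have hA' := Finset.mem_powerset.1 (hF hA)
    have hB' := Finset.mem_powerset.1 (hF hB)
    have h' : S \ A = S \ B := h
    rw [← Finset.sdiff_sdiff_eq_self hA', ← Finset.sdiff_sdiff_eq_self hB', h']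
  have hcard : (F.image fun A => S \ A).card = F.card := Finset.card_image_of_injOn hinj
  have hdisj : Disjoint F (F.image fun A => S \ A) := by
    rw [Finset.disjoint_left]
    intro A hA hA'
    obtain ⟨B, hB, hBA⟩ := Finset.mem_image.1 hA'
    obtain ⟨x, hx⟩ := hI1 A hA B hB
    rw [Finset.mem_inter, ← hBA, Finset.mem_sdiff] at hx
    exact hx.1.2 hx.2
  have hsub : F ∪ (F.image fun A => S \ A) ⊆ S.powerset := by
    apply Finset.union_subset hF
    intro A hA
    obtain ⟨B, -, rfl⟩ := Finset.mem_image.1 hA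
    exact Finset.mem_powerset.2 Finset.sdiff_subset
  have hall : F ∪ (F.image fun A => S \ A) = S.powerset := by
    apply Finset.eq_of_subset_of_card_le hsub
    rw [Finset.card_union_of_disjoint hdisj, hcard, Finset.card_powerset]
    omega
  -- a smallest member
  obtain ⟨A, hA, hmin⟩ := Finset.exists_min_image F Finset.card hne
  have hA2 := hI A hA A hA
  rw [Finset.inter_self] at hA2
  obtain ⟨x, hx⟩ := Finset.card_pos.1 (show 0 < A.card by omega)
  have hAS := Finset.mem_powerset.1 (hF hA)
  have h1 : A.erase x ∈ F ∪ (F.image fun A => S \ A) := by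
    rw [hall, Finset.mem_powerset]
    exact (Finset.erase_subset x A).trans hAS
  rcases Finset.mem_union.1 h1 with h2 | h2
  · have := hmin _ h2
    rw [Finset.card_erase_of_mem hx] at this
    omega
  · obtain ⟨B, hB, hBA⟩ := Finset.mem_image.1 h2
    have hBS := Finset.mem_powerset.1 (hF hB)
    have h3 := hI A hA B hB
    have h4 : A ∩ B ⊆ {x} := by
      intro y hy
      rw [Finset.mem_inter] at hy
      by_contra hyx
      rw [Finset.mem_singleton] at hyx
      have h5 : y ∈ A.erase x := Finset.mem_erase.2 ⟨hyx, hy.1⟩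
      rw [← hBA, Finset.mem_sdiff] at h5
      exact h5.2 hy.2
    have h5 := Finset.card_le_card h4
    rw [Finset.card_singleton] at h5
    omega

end Families

section Graphs

variable {n : ℕ}

/-- The pairs `(i, j)` with `i < j`. -/
def pairs (n : ℕ) : Finset (Fin n × Fin n) := univ.filter fun p => p.1 < p.2

open Classical in
/-- The edges of `G`, as pairs. -/
noncomputable def ed (G : SimpleGraph (Fin n)) : Finset (Fin n × Fin n) :=
  (pairs n).filter fun p => G.Adj p.1 p.2

lemma card_offDiag_eq (n : ℕ) (P : Fin n × Fin n → Prop) [DecidablePred P]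
    (hP : ∀ i j, P (i, j) ↔ P (j, i)) :
    ((univ : Finset (Fin n)).offDiag.filter P).card = 2 * ((pairs n).filter P).card := by
  have h1 : (univ : Finset (Fin n)).offDiag.filter P =
      (pairs n).filter P ∪ ((pairs n).filter P).image Prod.swap := by
    ext ⟨i, j⟩
    simp only [Finset.mem_filter, Finset.mem_offDiag, Finset.mem_univ, true_and,
      Finset.mem_union, Finset.mem_image, pairs, Prod.exists, Prod.swap_prod_mk, Prod.mk.injEq]
    constructor
    · rintro ⟨hij, hp⟩
      rcases lt_or_gt_of_ne hij with h | h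
      · exact Or.inl ⟨h, hp⟩
      · exact Or.inr ⟨j, i, ⟨h, (hP i j).1 hp⟩, rfl, rfl⟩
    · rintro (⟨h, hp⟩ | ⟨a, b, ⟨h, hp⟩, rfl, rfl⟩)
      · exact ⟨h.ne, hp⟩
      · exact ⟨h.ne', (hP a b).1 hp⟩
  rw [h1, Finset.card_union_of_disjoint, Finset.card_image_of_injective _ Prod.swap_injective]
  · ring
  · rw [Finset.disjoint_left]
    rintro ⟨i, j⟩ h h'
    simp only [Finset.mem_filter, Finset.mem_univ, true_and, Finset.mem_image, pairs, Prod.exists,
      Prod.swap_prod_mk, Prod.mk.injEq] at h h'
    obtain ⟨a, b, ⟨hab, -⟩, rfl, rfl⟩ := h'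
    exact absurd h.1 (not_lt.2 hab.le)

lemma card_pairs (n : ℕ) : (pairs n).card = n.choose 2 := by
  have h := card_offDiag_eq n (fun _ => True) (fun _ _ => Iff.rfl)
  simp only [Finset.filter_true] at h
  rw [Finset.offDiag_card, Finset.card_univ, Fintype.card_fin] at h
  rw [Nat.choose_two_right, Nat.mul_sub, mul_one, h]
  omega

open Classical in
lemma mem_ed {G : SimpleGraph (Fin n)} {p : Fin n × Fin n} :
    p ∈ ed G ↔ p.1 < p.2 ∧ G.Adj p.1 p.2 := by
  simp only [ed, pairs, Finset.mem_filter, Finset.mem_univ, true_and]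

lemma ed_subset (G : SimpleGraph (Fin n)) : ed G ⊆ pairs n := by
  intro p hp
  rw [mem_ed] at hp
  simp [pairs, hp.1]

lemma ed_injective : Function.Injective (ed : SimpleGraph (Fin n) → _) := by
  intro G G' h
  ext u v
  have key : ∀ a b : Fin n, a < b → (G.Adj a b ↔ G'.Adj a b) := by
    intro a b hab
    have h1 : (a, b) ∈ ed G ↔ (a, b) ∈ ed G' := by rw [h]
    rw [mem_ed, mem_ed] at h1
    simpa [hab] using h1
  rcases lt_trichotomy u v with h1 | h1 | h1
  · exact key u v h1
  · subst h1; simp
  · rw [G.adj_comm, G'.adj_comm]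
    exact key v u h1

lemma ed_inter (G G' : SimpleGraph (Fin n)) : ed G ∩ ed G' = ed (G ⊓ G') := by
  ext p
  rw [Finset.mem_inter, mem_ed, mem_ed, mem_ed, SimpleGraph.inf_adj]
  tauto

lemma ncard_le_ed (G : SimpleGraph (Fin n)) : G.edgeSet.ncard ≤ (ed G).card := by
  have h : G.edgeSet ⊆ (fun p : Fin n × Fin n => s(p.1, p.2)) '' (ed G : Set (Fin n × Fin n)) := by
    intro e he
    induction e using Sym2.ind with
    | _ u v =>
      rw [SimpleGraph.mem_edgeSet] at he
      rcases lt_or_gt_of_ne he.ne with h | h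
      · exact ⟨(u, v), mem_ed.2 ⟨h, he⟩, rfl⟩
      · exact ⟨(v, u), mem_ed.2 ⟨h, he.symm⟩, Sym2.eq_swap⟩
  refine (Set.ncard_le_ncard h (Set.toFinite _)).trans ?_
  refine (Set.ncard_image_le (Set.toFinite _)).trans ?_
  rw [Set.ncard_coe_finset]

/-- The number of vertices in the residue class of `v` modulo `r`. -/
lemma card_class (r : ℕ) (hr : 0 < r) (v : ℕ) :
    (univ.filter fun j : Fin n => j.val % r = v % r).card =
      n / r + if v % r < n % r then 1 else 0 := by
  have h1 : (univ.filter fun j : Fin n => j.val % r = v % r).card =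
      ((range n).filter fun j => j % r = v % r).card := by
    rw [← Finset.card_image_of_injective _ Fin.val_injective]
    congr 1
    ext x
    simp only [Finset.mem_image, Finset.mem_filter, Finset.mem_univ, true_and, Finset.mem_range]
    constructor
    · rintro ⟨j, hj, rfl⟩
      exact ⟨j.2, hj⟩
    · rintro ⟨hx, hx'⟩
      exact ⟨⟨x, hx⟩, hx', rfl⟩
  have h2 := Nat.count_modEq_card n hr v
  rw [Nat.count_eq_card_filter_range] at h2
  rw [h1]
  exact h2

/-- Fewer than a proportion `1 / r` of the ordered pairs are inside the residue classes. -/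
lemma D_lt (r : ℕ) (hr : 2 ≤ r) (hn : 2 ≤ n) :
    r * ((univ : Finset (Fin n)).offDiag.filter fun p => p.1.val % r = p.2.val % r).card <
      n * (n - 1) := by
  set D := ((univ : Finset (Fin n)).offDiag.filter fun p => p.1.val % r = p.2.val % r).card with hD
  have h1 : D + n = ∑ i : Fin n, (n / r + if i.val % r < n % r then 1 else 0) := by
    have h2 : D + n = ((univ : Finset (Fin n × Fin n)).filter
        fun p => p.1.val % r = p.2.val % r).card := by
      have h3 : (univ : Finset (Fin n × Fin n)).filter (fun p => p.1.val % r = p.2.val % r) =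
          ((univ : Finset (Fin n)).offDiag.filter fun p => p.1.val % r = p.2.val % r) ∪
          (univ : Finset (Fin n)).diag := by
        ext ⟨i, j⟩
        simp only [Finset.mem_filter, Finset.mem_univ, true_and, Finset.mem_union,
          Finset.mem_offDiag, Finset.mem_diag]
        by_cases h : i = j
        · subst h; simp
        · simp [h]
      rw [h3, Finset.card_union_of_disjoint]
      · simp [hD]
      · rw [Finset.disjoint_left]
        rintro ⟨i, j⟩ h h'
        simp only [Finset.mem_filter, Finset.mem_offDiag, Finset.mem_diag] at h h'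
        exact h.1.2.2 h'.2
    rw [h2, Finset.card_filter, Fintype.sum_prod_type]
    refine Finset.sum_congr rfl fun i _ => ?_
    rw [← card_class r (by omega) i.val, Finset.card_filter]
    exact Finset.sum_congr rfl fun j _ => by simp only [eq_comm]
  have hdiv := Nat.div_add_mod n r
  have hmod := Nat.mod_lt n (show 0 < r by omega)
  have hle : ∀ i ∈ (univ : Finset (Fin n)),
      r * (n / r + if i.val % r < n % r then 1 else 0) ≤ n + r - 1 := by
    intro i _
    rw [mul_add]
    split_ifs with h <;> omega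
  have hlt : ∃ i ∈ (univ : Finset (Fin n)),
      r * (n / r + if i.val % r < n % r then 1 else 0) < n + r - 1 := by
    refine ⟨⟨1, by omega⟩, Finset.mem_univ _, ?_⟩
    have : (1 : ℕ) % r = 1 := Nat.mod_eq_of_lt (by omega)
    simp only [this]
    rw [mul_add]
    split_ifs with h <;> omega
  have h4 : r * (D + n) < n * (n + r - 1) := by
    rw [h1, Finset.mul_sum]
    calc _ < ∑ _i : Fin n, (n + r - 1) := Finset.sum_lt_sum hle hlt
      _ = n * (n + r - 1) := by simp
  have h5 : n * (n + r - 1) = n * (n - 1) + n * r := by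
    rw [← mul_add]; congr 1; omega
  rw [h5, mul_add] at h4
  have h6 : r * n = n * r := mul_comm r n
  omega

/-- The number of permutations `π` such that `π i` and `π j` are in the same class. -/
def K (n r : ℕ) (i j : Fin n) : ℕ :=
  (univ.filter fun π : Equiv.Perm (Fin n) => (π i).val % r = (π j).val % r).card

lemma K_eq (r : ℕ) {i j i' j' : Fin n} (h : i ≠ j) (h' : i' ≠ j') : K n r i j = K n r i' j' := by
  obtain ⟨σ, h1, h2⟩ : ∃ σ : Equiv.Perm (Fin n), σ i = i' ∧ σ j = j' := by
    have hj1 : Equiv.swap i i' j ≠ i' := by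
      intro hcon
      apply h
      rw [Equiv.swap_apply_eq_iff, Equiv.swap_apply_right] at hcon
      exact hcon.symm
    refine ⟨Equiv.swap (Equiv.swap i i' j) j' * Equiv.swap i i', ?_, ?_⟩
    · rw [Equiv.Perm.mul_apply, Equiv.swap_apply_left]
      exact Equiv.swap_apply_of_ne_of_ne hj1.symm h'
    · rw [Equiv.Perm.mul_apply, Equiv.swap_apply_left]
  unfold K
  refine Finset.card_bij (fun π _ => π * σ⁻¹) ?_ ?_ ?_
  · intro π hπ
    simp only [Finset.mem_filter, Finset.mem_univ, true_and] at hπ ⊢
    rw [Equiv.Perm.mul_apply, Equiv.Perm.mul_apply, ← h1, ← h2]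
    simpa using hπ
  · intro π _ π' _ hh
    exact mul_right_cancel hh
  · intro π hπ
    simp only [Finset.mem_filter, Finset.mem_univ, true_and] at hπ
    refine ⟨π * σ, ?_, by simp⟩
    simp only [Finset.mem_filter, Finset.mem_univ, true_and]
    rw [Equiv.Perm.mul_apply, Equiv.Perm.mul_apply, h1, h2]
    exact hπ

/-- Double counting. -/
lemma K_count (r : ℕ) (i j : Fin n) (hij : i ≠ j) :
    n * (n - 1) * K n r i j = n.factorial *
      ((univ : Finset (Fin n)).offDiag.filter fun p => p.1.val % r = p.2.val % r).card := by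
  have h1 : ∑ p ∈ (univ : Finset (Fin n)).offDiag, K n r p.1 p.2 =
      n * (n - 1) * K n r i j := by
    rw [Finset.sum_congr rfl (g := fun _ => K n r i j)]
    · rw [Finset.sum_const, Finset.offDiag_card, Finset.card_univ, Fintype.card_fin, smul_eq_mul,
        Nat.mul_sub, mul_one]
    · rintro ⟨a, b⟩ hab
      rw [Finset.mem_offDiag] at hab
      exact K_eq r hab.2.2 hij
  rw [← h1]
  unfold K
  simp_rw [Finset.card_filter]
  rw [Finset.sum_comm]
  have h2 : ∀ π : Equiv.Perm (Fin n), ∑ p ∈ (univ : Finset (Fin n)).offDiag,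
      (if (π p.1).val % r = (π p.2).val % r then 1 else 0) =
      ∑ p ∈ (univ : Finset (Fin n)).offDiag, (if p.1.val % r = p.2.val % r then 1 else 0) := by
    intro π
    refine Finset.sum_bij (fun p _ => (π p.1, π p.2)) ?_ ?_ ?_ ?_
    · rintro ⟨a, b⟩ hab
      rw [Finset.mem_offDiag] at hab ⊢
      exact ⟨Finset.mem_univ _, Finset.mem_univ _, fun h => hab.2.2 (π.injective h)⟩
    · rintro ⟨a, b⟩ _ ⟨a', b'⟩ _ h
      simp only [Prod.mk.injEq] at h
      rw [π.injective h.1, π.injective h.2]
    · rintro ⟨a, b⟩ hab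
      rw [Finset.mem_offDiag] at hab
      refine ⟨(π.symm a, π.symm b), ?_, by simp⟩
      rw [Finset.mem_offDiag]
      exact ⟨Finset.mem_univ _, Finset.mem_univ _, fun h => hab.2.2 (π.symm.injective h)⟩
    · rintro ⟨a, b⟩ _
      rfl
  rw [Finset.sum_congr rfl fun π _ => h2 π, Finset.sum_const, Finset.card_univ,
    Fintype.card_perm, Fintype.card_fin, smul_eq_mul]

/-- The case of chromatic number at least three. -/
theorem main_ge3 (r : ℕ) (hr : 2 ≤ r) (𝒢 : Finset (SimpleGraph (Fin n)))
    (hG : ∀ G₁ ∈ 𝒢, ∀ G₂ ∈ 𝒢, ¬ (G₁ ⊓ G₂).Colorable r) :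
    𝒢.card * 2 ^ r < 2 ^ (n.choose 2) := by
  classical
  rcases 𝒢.eq_empty_or_nonempty with rfl | ⟨G0, hG0⟩
  · simp
  -- `n` is larger than `r`
  have hn : r < n := by
    by_contra hcon
    push Not at hcon
    apply hG G0 hG0 G0 hG0
    refine ⟨SimpleGraph.Coloring.mk (fun v => Fin.castLE hcon v) ?_⟩
    intro u v huv h
    exact huv.ne (Fin.castLE_injective hcon h)
  have hn2 : 2 ≤ n := by omega
  let i0 : Fin n := ⟨0, by omega⟩
  let i1 : Fin n := ⟨1, by omega⟩
  have hi : i0 ≠ i1 := by
    intro h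
    have := congrArg Fin.val h
    simp [i0, i1] at this
  set k := K n r i0 i1 with hk
  set D := ((univ : Finset (Fin n)).offDiag.filter fun p => p.1.val % r = p.2.val % r).card with hD
  have hcount := K_count r i0 i1 hi
  rw [← hk, ← hD] at hcount
  have hDlt := D_lt (n := n) r hr hn2
  rw [← hD] at hDlt
  have hDpos : 0 < D := by
    rw [hD, Finset.card_pos]
    refine ⟨(⟨0, by omega⟩, ⟨r, hn⟩), ?_⟩
    simp only [Finset.mem_filter, Finset.mem_offDiag, Finset.mem_univ, true_and]
    refine ⟨?_, by simp⟩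
    intro h
    have := congrArg Fin.val h
    simp at this
    omega
  have hfac : 0 < n.factorial := Nat.factorial_pos n
  have hk1 : 1 ≤ k := by
    by_contra hcon
    have : k = 0 := by omega
    rw [this, mul_zero] at hcount
    have := Nat.mul_pos hfac hDpos
    omega
  -- `r k < n!`
  have hrk : r * k < n.factorial := by
    have hpos : 0 < n * (n - 1) := Nat.mul_pos (by omega) (by omega)
    have h1 : n * (n - 1) * (r * k) < n * (n - 1) * n.factorial := by
      calc n * (n - 1) * (r * k) = r * (n * (n - 1) * k) := by ring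
        _ = n.factorial * (r * D) := by rw [hcount]; ring
        _ < n.factorial * (n * (n - 1)) := Nat.mul_lt_mul_of_pos_left hDlt hfac
        _ = n * (n - 1) * n.factorial := by ring
    exact lt_of_mul_lt_mul_left h1 (Nat.zero_le _)
  -- Shearer
  let S : Equiv.Perm (Fin n) → Finset (Fin n × Fin n) := fun π =>
    (pairs n).filter fun p => (π p.1).val % r = (π p.2).val % r
  let 𝒜 : Finset (Finset (Fin n × Fin n)) := 𝒢.image ed
  have h𝒜card : 𝒜.card = 𝒢.card := Finset.card_image_of_injective _ ed_injective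
  have hcov : ∀ a ∈ pairs n, (univ.filter fun π => a ∈ S π).card = k := by
    rintro ⟨i, j⟩ ha
    have hij : i < j := by simpa [pairs] using ha
    have h1 : (univ.filter fun π => (i, j) ∈ S π) =
        univ.filter fun π : Equiv.Perm (Fin n) => (π i).val % r = (π j).val % r := by
      ext π
      simp only [S, Finset.mem_filter, Finset.mem_univ, true_and]
      exact ⟨fun h => h.2, fun h => ⟨ha, h⟩⟩
    rw [h1]
    exact K_eq r hij.ne hi
  have hsh := Pool.Agent.TH953.RC.shearer S k hk1 (pairs n) hcov 𝒜 (by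
    intro A hA
    obtain ⟨G, -, rfl⟩ := Finset.mem_image.1 hA
    exact Finset.mem_powerset.2 (ed_subset G))
  have hsh' : 𝒜.card ^ k ≤ ∏ π, (𝒜.image fun A => A ∩ S π).card := by exact_mod_cast hsh
  have hproj : ∀ π, 2 * (𝒜.image fun A => A ∩ S π).card ≤ 2 ^ (S π).card := by
    intro π
    apply intersecting_card
    · intro A hA
      obtain ⟨B, -, rfl⟩ := Finset.mem_image.1 hA
      exact Finset.mem_powerset.2 Finset.inter_subset_right
    · intro A hA B hB
      obtain ⟨A', hA', rfl⟩ := Finset.mem_image.1 hA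
      obtain ⟨B', hB', rfl⟩ := Finset.mem_image.1 hB
      obtain ⟨G₁, h1, rfl⟩ := Finset.mem_image.1 hA'
      obtain ⟨G₂, h2, rfl⟩ := Finset.mem_image.1 hB'
      by_contra hcon
      apply hG G₁ h1 G₂ h2
      refine ⟨SimpleGraph.Coloring.mk (fun v => ⟨(π v).val % r, Nat.mod_lt _ (by omega)⟩) ?_⟩
      have key : ∀ a b : Fin n, a < b → (G₁ ⊓ G₂).Adj a b → (π a).val % r ≠ (π b).val % r := by
        intro a b hab hadj hmod
        apply hcon
        refine ⟨(a, b), ?_⟩
        have hp : (a, b) ∈ pairs n := by simp [pairs, hab]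
        have hS : (a, b) ∈ S π := Finset.mem_filter.2 ⟨hp, hmod⟩
        simp only [Finset.mem_inter]
        exact ⟨⟨mem_ed.2 ⟨hab, hadj.1⟩, hS⟩, ⟨mem_ed.2 ⟨hab, hadj.2⟩, hS⟩⟩
      intro u v huv h
      have h' : (π u).val % r = (π v).val % r := congrArg Fin.val h
      rcases lt_or_gt_of_ne huv.ne with h3 | h3
      · exact key u v h3 huv h'
      · exact key v u h3 huv.symm h'.symm
  have hprod : 2 ^ n.factorial * ∏ π, (𝒜.image fun A => A ∩ S π).card ≤
      2 ^ ((n.choose 2) * k) := by
    have h1 : (2 : ℕ) ^ n.factorial = ∏ _π : Equiv.Perm (Fin n), 2 := by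
      rw [Finset.prod_const, Finset.card_univ, Fintype.card_perm, Fintype.card_fin]
    rw [h1, ← Finset.prod_mul_distrib]
    refine (Finset.prod_le_prod (fun _ _ => Nat.zero_le _) fun π _ => hproj π).trans ?_
    rw [Finset.prod_pow_eq_pow_sum]
    have h2 : ∑ π, (S π).card = (n.choose 2) * k := by
      have h3 : ∑ π, (S π).card = ∑ a ∈ pairs n, (univ.filter fun π => a ∈ S π).card := by
        have h4 : ∀ π, (S π).card = ∑ a ∈ pairs n, if a ∈ S π then 1 else 0 := by
          intro π
          rw [← Finset.card_filter]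
          congr 1
          ext a
          simp only [S, Finset.mem_filter]
          tauto
        simp_rw [h4, Finset.card_filter]
        rw [Finset.sum_comm]
      rw [h3, Finset.sum_congr rfl hcov, Finset.sum_const, card_pairs, smul_eq_mul]
    rw [h2]
  by_contra hcon
  push Not at hcon
  have h1 : 2 ^ (n.factorial + (n.choose 2) * k) ≤ 2 ^ ((n.choose 2) * k + r * k) := by
    calc 2 ^ (n.factorial + (n.choose 2) * k) = 2 ^ n.factorial * (2 ^ (n.choose 2)) ^ k := by
          rw [pow_add, pow_mul]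
      _ ≤ 2 ^ n.factorial * (𝒢.card * 2 ^ r) ^ k :=
          Nat.mul_le_mul_left _ (Nat.pow_le_pow_left hcon k)
      _ = (2 ^ n.factorial * 𝒜.card ^ k) * 2 ^ (r * k) := by
          rw [mul_pow, h𝒜card, ← pow_mul]; ring
      _ ≤ (2 ^ n.factorial * ∏ π, (𝒜.image fun A => A ∩ S π).card) * 2 ^ (r * k) :=
          Nat.mul_le_mul_right _ (Nat.mul_le_mul_left _ hsh')
      _ ≤ 2 ^ ((n.choose 2) * k) * 2 ^ (r * k) := Nat.mul_le_mul_right _ hprod
      _ = _ := by rw [pow_add]
  have h2 := (Nat.pow_le_pow_iff_right (by norm_num)).1 h1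
  omega

/-- The case of chromatic number two. -/
theorem main_two (𝒢 : Finset (SimpleGraph (Fin n)))
    (hG : ∀ G₁ ∈ 𝒢, ∀ G₂ ∈ 𝒢, 2 ≤ (G₁ ⊓ G₂).edgeSet.ncard) :
    𝒢.card * 2 < 2 ^ (n.choose 2) := by
  classical
  have h := two_intersecting_card (pairs n) (𝒢.image ed) (by
    intro A hA
    obtain ⟨G, -, rfl⟩ := Finset.mem_image.1 hA
    exact Finset.mem_powerset.2 (ed_subset G)) (by
    intro A hA B hB
    obtain ⟨G₁, h1, rfl⟩ := Finset.mem_image.1 hA
    obtain ⟨G₂, h2, rfl⟩ := Finset.mem_image.1 hB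
    rw [ed_inter]
    exact (hG G₁ h1 G₂ h2).trans (ncard_le_ed _))
  rw [Finset.card_image_of_injective _ ed_injective, card_pairs] at h
  omega

end Graphs

/-- The family `𝒢` of graphs on `Fin n` is `H`-intersecting: for all `G₁, G₂ ∈ 𝒢` the graph
`G₁ ∩ G₂` has a subgraph isomorphic to `H`. -/
def HIntersecting {W : Type} (H : SimpleGraph W) {n : ℕ} (𝒢 : Finset (SimpleGraph (Fin n))) :
    Prop :=
  ∀ G₁ ∈ 𝒢, ∀ G₂ ∈ 𝒢, H.IsContained (G₁ ⊓ G₂)

/-- `M_H(n)`: the largest size of an `H`-intersecting family of graphs on `Fin n`. -/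
noncomputable def M {W : Type} (H : SimpleGraph W) (n : ℕ) : ℕ :=
  sSup {k | ∃ 𝒢 : Finset (SimpleGraph (Fin n)), HIntersecting H 𝒢 ∧ 𝒢.card = k}

/-- The bound for families. -/
theorem family_bound {W : Type} [Finite W] (H : SimpleGraph W) (hH : 2 ≤ H.edgeSet.ncard) (c : ℕ)
    (hc : H.chromaticNumber = c) {n : ℕ} (𝒢 : Finset (SimpleGraph (Fin n)))
    (h : HIntersecting H 𝒢) : 𝒢.card * 2 ^ (c - 1) < 2 ^ (n.choose 2) := by
  have hnc : ∀ r : ℕ, r < c → ¬ H.Colorable r := by
    intro r hr hcol
    have h1 := hcol.chromaticNumber_le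
    rw [hc] at h1
    have h2 : c ≤ r := by exact_mod_cast h1
    omega
  -- `H` has an edge
  have hedge : ∃ u v, H.Adj u v := by
    have h1 : H.edgeSet.Nonempty := by
      rw [← Set.ncard_pos (Set.toFinite _)]
      omega
    obtain ⟨e, he⟩ := h1
    induction e using Sym2.ind with
    | _ u v => exact ⟨u, v, he⟩
  have hc2 : 2 ≤ c := by
    by_contra hcon
    obtain ⟨u, v, huv⟩ := hedge
    have hcol : H.Colorable c := by
      rw [← SimpleGraph.chromaticNumber_le_iff_colorable, hc]
    obtain ⟨C⟩ := hcol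
    have hc1 : c = 0 ∨ c = 1 := by omega
    rcases hc1 with rfl | rfl
    · exact (C u).elim0
    · exact C.valid huv (Subsingleton.elim _ _)
  rcases Nat.lt_or_ge 2 c with h3 | h3
  · apply main_ge3 (c - 1) (by omega) 𝒢
    intro G₁ h1 G₂ h2 hcol
    obtain ⟨f⟩ := h G₁ h1 G₂ h2
    exact hnc (c - 1) (by omega) (hcol.of_hom f.toHom)
  · have hc' : c = 2 := by omega
    subst hc'
    have := main_two 𝒢 (by
      intro G₁ h1 G₂ h2
      refine hH.trans ?_
      obtain ⟨f⟩ := h G₁ h1 G₂ h2
      have hsub : Sym2.map f.toHom '' H.edgeSet ⊆ (G₁ ⊓ G₂).edgeSet := by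
        rintro _ ⟨e, he, rfl⟩
        induction e using Sym2.ind with
        | _ u v => exact f.toHom.map_adj he
      have h3 := Set.ncard_le_ncard hsub (Set.toFinite _)
      rwa [Set.ncard_image_of_injective _ (Sym2.map.injective f.injective)] at h3)
    simpa using this

/-- **Main theorem.** For every finite graph `H` with at least two edges and every `n`,
`M_H(n) < 2 ^ (C(n, 2) - (χ(H) - 1))`; so the bound is never attained. -/
theorem result {W : Type} [Finite W] (H : SimpleGraph W) (hH : 2 ≤ H.edgeSet.ncard) (c : ℕ)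
    (hc : H.chromaticNumber = c) (n : ℕ) :
    (M H n : ℝ) < (2 : ℝ) ^ ((n.choose 2 : ℝ) - ((c : ℝ) - 1)) := by
  have hmem : M H n ∈ {k | ∃ 𝒢 : Finset (SimpleGraph (Fin n)), HIntersecting H 𝒢 ∧ 𝒢.card = k} := by
    classical
    refine Nat.sSup_mem ⟨0, ∅, ?_, rfl⟩ ⟨Fintype.card (SimpleGraph (Fin n)), ?_⟩
    · intro G hG
      exact absurd hG (Finset.notMem_empty G)
    · rintro k ⟨𝒢, -, rfl⟩
      exact Finset.card_le_univ 𝒢
  obtain ⟨𝒢, h𝒢, hcard⟩ := hmem
  have h1 := family_bound H hH c hc 𝒢 h𝒢
  rw [hcard] at h1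
  have hc1 : 1 ≤ c := by
    by_contra hcon
    have h0 : c = 0 := by omega
    subst h0
    have hcol : H.Colorable 0 := by
      rw [← SimpleGraph.chromaticNumber_le_iff_colorable, hc]
    obtain ⟨C⟩ := hcol
    have h2 : H.edgeSet.Nonempty := by
      rw [← Set.ncard_pos (Set.toFinite _)]
      omega
    obtain ⟨e, -⟩ := h2
    induction e using Sym2.ind with
    | _ u v => exact (C u).elim0
  have h2 : (M H n : ℝ) * 2 ^ (c - 1) < 2 ^ (n.choose 2) := by exact_mod_cast h1
  rw [Real.rpow_sub (by norm_num), lt_div_iff₀ (by positivity), Real.rpow_natCast]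
  have h3 : (c : ℝ) - 1 = ((c - 1 : ℕ) : ℝ) := by
    rw [Nat.cast_sub hc1]; simp
  rw [h3, Real.rpow_natCast]
  exact h2

end Pool.Agent.Results.MP_cf191d_co.NeverTight
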